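import Pool.Agent.W670.ML.Defs

set_option autoImplicit false

namespace Pool.Agent.W502.ML

open Pool.Agent.W670.ML

theorem tr : Pool.Agent.W670.ML.S_TR := by
  intro K Ω Ω' _ _ _ _ _ ι n G L h
  obtain ⟨hdim, e, he⟩ := h
  let j : ↥L ≃ₐ[K] ↥(L.map ι.toAlgHom) := L.equivMap ι.toAlgHom
  refine ⟨by rw [← hdim]; exact (LinearEquiv.finrank_eq j.toLinearEquiv).symm, ?_⟩
  refine ⟨(AlgEquiv.arrowCongr j ι).symm.trans e, ?_⟩
  intro τ
  rw [he τ]
  constructor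
  · rintro ⟨σ, hσ⟩
    refine ⟨ι.symm.trans (σ.trans ι), fun φ' => ?_⟩
    have h1 := hσ ((AlgEquiv.arrowCongr j ι).symm φ')
    simp only [Equiv.trans_apply]
    rw [h1]
    congr 1
    rw [Equiv.eq_symm_apply]
    ext x
    simp [AlgEquiv.arrowCongr]
  · rintro ⟨σ', hσ'⟩
    refine ⟨ι.trans (σ'.trans ι.symm), fun φ => ?_⟩
    have h1 := hσ' ((AlgEquiv.arrowCongr j ι) φ)
    simp only [Equiv.trans_apply, Equiv.symm_apply_apply] at h1
    rw [h1]
    congr 1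
    rw [Equiv.symm_apply_eq]
    ext x
    simp [AlgEquiv.arrowCongr]

end Pool.Agent.W502.ML
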